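import Mathlib
import Pool.Agent.H239R2.Cover.BelowSix

set_option autoImplicit false

/-!
Every bridgeless multigraph on `n` vertices has a circular `6 n / (n + 2)`-flow.
-/

namespace Pool.Agent.Results.MP_974d84_co.CircularFlowBelowSix

open Pool.Agent.H239R2.Cover (circ_flow_bridgeless bdry bdry_apply ecut mem_ecut)

open Classical in
/-- Every finite multigraph on `n` vertices without an edge cut of size one has a real flow `f`
with `1 ≤ |f e| ≤ 6 n / (n + 2) - 1` for all edges `e`. -/
theorem result :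
    ∀ (V E : Type) [Fintype V] [Fintype E] (src dst : E → V),
      (∀ X : Set V, Nat.card {e : E // ¬ (src e ∈ X ↔ dst e ∈ X)} ≠ 1) →
      ∃ f : E → ℝ,
        (∀ e : E, 1 ≤ |f e| ∧ |f e| ≤ 6 * (Nat.card V : ℝ) / (Nat.card V + 2) - 1) ∧
        ∀ v : V, ∑ e : E, (if src e = v then f e else 0) = ∑ e : E, (if dst e = v then f e else 0)
    := by
  intro V E _ _ src dst hbr
  rcases isEmpty_or_nonempty V with hV | hV
  · exact ⟨fun _ => 1, fun e => (hV.false (src e)).elim, fun v => (hV.false v).elim⟩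
  obtain ⟨N, hN⟩ : ∃ N, Fintype.card V = N + 1 :=
    ⟨Fintype.card V - 1, by have := Fintype.card_pos (α := V); omega⟩
  obtain ⟨f, hf, hf0⟩ := circ_flow_bridgeless N V E src dst hN (by
    intro X hX
    apply hbr (X : Set V)
    rw [← hX, Nat.card_eq_fintype_card, Fintype.card_subtype, ecut]
    congr 1)
  refine ⟨f, fun e => ⟨(hf e).1, (hf e).2.trans (le_of_eq ?_)⟩, fun v => ?_⟩
  · rw [Nat.card_eq_fintype_card, hN]
    push_cast
    have h1 : (0:ℝ) < (N:ℝ) + 3 := by positivity
    have h2 : (N:ℝ) + 1 + 2 = N + 3 := by ring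
    rw [h2]
    field_simp
    ring
  · have h1 := congrFun hf0 v
    rw [bdry_apply, Pi.zero_apply] at h1
    rw [← sub_eq_zero, ← Finset.sum_sub_distrib]
    refine Eq.trans (Finset.sum_congr rfl fun e _ => ?_) h1
    by_cases h2 : src e = v <;> by_cases h3 : dst e = v <;> simp [h2, h3]

end Pool.Agent.Results.MP_974d84_co.CircularFlowBelowSix
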