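import Mathlib
import Pool.Agent.H185R2.Reg.Count

set_option autoImplicit false

/-!
The chromatic number of sparse regular matroids: if `2 |X| ≤ k r(X)` for all sets `X` of
elements of a regular matroid `G`, then `χ_G(i) ≠ 0` for all integers `i ≥ k`.
-/

namespace Pool.Agent.Results.MP_974d84_co.SparseRegular

open Finset Matrix
open Pool.Agent.H239R2.Cover (rv Unimod unimod_of_minors)
open Pool.Agent.Helper879.ECD (sp)
open Pool.Agent.H185R2.Reg (gq char_ne_zero)

/-- The rank of a set `X` of elements of the binary matroid on `Fin n` represented over `GF(2)`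
by the vectors `A 0, …, A (n-1)`. -/
noncomputable def rank {n m : ℕ} (A : Fin n → Fin m → ZMod 2) (X : Set (Fin n)) : ℕ :=
  Module.finrank (ZMod 2) (Submodule.span (ZMod 2) (A '' X))

/-- The value at `k` of the characteristic polynomial of the binary matroid represented by
`A`. -/
noncomputable def chi {n m : ℕ} (A : Fin n → Fin m → ZMod 2) (k : ℕ) : ℤ :=
  ∑ X : Finset (Fin n), (-1 : ℤ) ^ X.card *
    (k : ℤ) ^ (rank A Set.univ - rank A (X : Set (Fin n)))

/-- The binary matroid represented by `A` is regular: its independent sets are the independent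
sets of rows of a totally unimodular matrix. -/
def IsRegular {n m : ℕ} (A : Fin n → Fin m → ZMod 2) : Prop :=
  ∃ (m' : ℕ) (M : Matrix (Fin n) (Fin m') ℤ), M.IsTotallyUnimodular ∧
    ∀ I : Set (Fin n), LinearIndepOn (ZMod 2) A I ↔
      LinearIndepOn ℚ (fun i : Fin n => (fun j => (M i j : ℚ) : Fin m' → ℚ)) I

theorem unimod_of_TU {n m : ℕ} (M : Matrix (Fin n) (Fin m) ℤ) (hM : M.IsTotallyUnimodular) :
    Unimod (fun i => M i) := by
  classical
  have hN : (Matrix.fromRows M (1 : Matrix (Fin m) (Fin m) ℤ)).IsTotallyUnimodular :=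
    (Matrix.fromRows_one_isTotallyUnimodular_iff M).mpr hM
  set N := Matrix.fromRows M (1 : Matrix (Fin m) (Fin m) ℤ) with hNdef
  have hU : Unimod (fun e => N e) := by
    apply unimod_of_minors
    · intro c
      have h1 := (Matrix.isTotallyUnimodular_iff N).mp hN m c id
      have h2 : (Matrix.of (fun i => N (c i))) = N.submatrix c id := rfl
      rw [h2]
      obtain ⟨s, hs⟩ := h1
      rw [← hs]
      cases s with
      | zero => left; rfl
      | neg => right; simp
      | pos => right; simp
    · rw [eq_top_iff]
      intro w _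
      have hw : w = ∑ v, w v • rv (N (Sum.inr v)) := by
        ext k
        simp [rv, hNdef, Finset.sum_apply, Matrix.one_apply]
      rw [hw]
      exact Submodule.sum_mem _ fun v _ => Submodule.smul_mem _ _
        (Submodule.subset_span ⟨Sum.inr v, rfl⟩)
  intro I hI s ⟨a, ha⟩ e he
  have h1 := hU (I.map ⟨Sum.inl, Sum.inl_injective⟩) (by
    have h2 : ((I.map ⟨Sum.inl, Sum.inl_injective⟩ : Finset (Fin n ⊕ Fin m)) :
        Set (Fin n ⊕ Fin m)) = Sum.inl '' (I : Set (Fin n)) := by
      simp
    rw [h2]
    exact LinearIndepOn.image_of_comp Sum.inl (fun e => rv (N e)) (s := (I : Set (Fin n))) hI)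
    (Sum.elim s (fun _ => 0)) ⟨a, by
      rw [Finset.sum_map]
      rw [← ha]
      rfl⟩ (Sum.inl e) (by simpa using he)
  simpa using h1

/-- Two representations with the same independent sets have the same rank function. -/
theorem finrank_eq_of_indep {n : ℕ} {F F' W W' : Type} [Field F] [Field F'] [AddCommGroup W]
    [Module F W] [AddCommGroup W'] [Module F' W'] (v : Fin n → W) (v' : Fin n → W')
    (h : ∀ I : Set (Fin n), LinearIndepOn F v I ↔ LinearIndepOn F' v' I) (X : Set (Fin n)) :
    Module.finrank F (Submodule.span F (v '' X)) =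
      Module.finrank F' (Submodule.span F' (v' '' X)) := by
  classical
  obtain ⟨b, hbX, -, hspan, hind⟩ := exists_linearIndepOn_extension
    (K := F) (v := v) (s := (∅ : Set (Fin n))) (t := X)
    (linearIndepOn_empty F _) (Set.empty_subset X)
  have hind' := (h b).mp hind
  have hspan' : v' '' X ⊆ Submodule.span F' (v' '' b) := by
    rintro _ ⟨e, he, rfl⟩
    by_contra hne
    by_cases heb : e ∈ b
    · exact hne (Submodule.subset_span ⟨e, heb, rfl⟩)
    have h1 : LinearIndepOn F' v' (insert e b) :=
      (linearIndepOn_insert heb).mpr ⟨hind', hne⟩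
    have h2 := (h _).mpr h1
    exact ((linearIndepOn_insert heb).mp h2).2 (hspan ⟨e, he, rfl⟩)
  have e1 : Submodule.span F (v '' X) = Submodule.span F (v '' b) :=
    le_antisymm (Submodule.span_le.mpr hspan) (Submodule.span_mono (Set.image_mono hbX))
  have e2 : Submodule.span F' (v' '' X) = Submodule.span F' (v' '' b) :=
    le_antisymm (Submodule.span_le.mpr hspan') (Submodule.span_mono (Set.image_mono hbX))
  have : Fintype b := Fintype.ofFinite b
  have f1 := finrank_span_eq_card (R := F) (b := fun e : b => v e) hind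
  have f2 := finrank_span_eq_card (R := F') (b := fun e : b => v' e) hind'
  rw [e1, e2]
  rw [← Set.image_eq_range] at f1 f2
  rw [f1, f2]

/-- **Theorem.** Let `G` be a regular matroid and `k` an integer with `2 |X| ≤ k r(X)` for every
set `X` of elements. Then `χ_G(i) ≠ 0` for every integer `i ≥ k`. -/
theorem result {n m : ℕ} (A : Fin n → Fin m → ZMod 2) (hA : IsRegular A) (k : ℕ)
    (h : ∀ X : Finset (Fin n), 2 * X.card ≤ k * rank A (X : Set (Fin n))) :
    ∀ i : ℕ, k ≤ i → chi A i ≠ 0 := by
  classical
  intro i hi
  obtain ⟨m', M, hM, hind⟩ := hA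
  have hrk : ∀ X : Set (Fin n), rank A X = Module.finrank ℚ
      (Submodule.span ℚ ((fun i : Fin n => (fun j => (M i j : ℚ) : Fin m' → ℚ)) '' X)) :=
    fun X => finrank_eq_of_indep _ _ hind X
  by_cases h2 : 2 ≤ i
  · have h1 := char_ne_zero (fun i => M i) (unimod_of_TU M hM) i h2 (fun X => by
      have h3 := h X
      rw [hrk] at h3
      exact h3.trans (Nat.mul_le_mul_right _ hi))
    unfold chi
    intro h0
    apply h1
    rw [← h0]
    refine Finset.sum_congr rfl fun X _ => ?_
    rw [hrk, hrk]
    congr 3
    rw [sp, Finset.coe_univ]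
    rfl
  · have hn : n = 0 := by
      by_contra hn
      have h3 := h {⟨0, by omega⟩}
      have h4 : rank A (({⟨0, by omega⟩} : Finset (Fin n)) : Set (Fin n)) ≤ 1 := by
        unfold rank
        rw [Finset.coe_singleton, Set.image_singleton]
        have := finrank_span_finset_le_card (R := ZMod 2) ({A ⟨0, by omega⟩} : Finset (Fin m → ZMod 2))
        rw [Finset.card_singleton] at this
        unfold Set.finrank at this
        rwa [Finset.coe_singleton] at this
      rw [Finset.card_singleton] at h3
      have h5 : k * rank A (({⟨0, by omega⟩} : Finset (Fin n)) : Set (Fin n)) ≤ 1 * 1 :=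
        Nat.mul_le_mul (by omega) h4
      omega
    subst hn
    unfold chi
    rw [Fintype.sum_eq_single (∅ : Finset (Fin 0)) (fun X hX => absurd (Subsingleton.elim X ∅) hX)]
    have h6 : rank A Set.univ - rank A ((∅ : Finset (Fin 0)) : Set (Fin 0)) = 0 := by
      have : (Set.univ : Set (Fin 0)) = ((∅ : Finset (Fin 0)) : Set (Fin 0)) :=
        Subsingleton.elim _ _
      rw [this, Nat.sub_self]
    rw [h6]
    simp

end Pool.Agent.Results.MP_974d84_co.SparseRegular
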